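import Pool.Agent.helper38.VA.Spec

set_option autoImplicit false

namespace Pool.Agent.VA

open Matrix Module Pool.Agent.PR Pool.Agent.H48SL

private theorem CLE_ns {n : ℕ} {H : Subgroup (SLZ n)} {W : Submodule ℚ (MQ n)} {b : SLZ n}
    (h : SI H W b) {Z : MQ n} (hZ : Z ∈ W) (hZ0 : Z ≠ 0) (j : ℕ) (hj : 0 < j) (c : ℚ) :
    cj (b ^ j) Z ≠ c • Z := by
  intro he
  have h1 := h.irr j hj (Submodule.span ℚ {Z}) (by rwa [Submodule.span_singleton_le_iff_mem])
    (by rwa [Ne, Submodule.span_singleton_eq_bot]) (by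
      intro X hX
      obtain ⟨a, rfl⟩ := Submodule.mem_span_singleton.mp hX
      rw [map_smul, he, smul_smul]
      exact Submodule.mem_span_singleton.mpr ⟨a * c, rfl⟩)
  have h2 := h.two
  rw [← h1, finrank_span_singleton hZ0] at h2
  omega

private theorem CLE_pair {n : ℕ} {W : Submodule ℚ (MQ n)} {X₀ X₁ : MQ n} (hX₀ : X₀ ∈ W)
    (hX₁ : X₁ ∈ W) (h0 : X₀ ≠ 0) (hs : ∀ a : ℚ, a • X₀ ≠ X₁) (hd : finrank ℚ W = 2)
    (Y : MQ n) (hY : Y ∈ W) : ∃ a c : ℚ, a • X₀ + c • X₁ = Y := by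
  have hli : LinearIndependent ℚ ![X₀, X₁] := (LinearIndependent.pair_iff' h0).mpr hs
  have hfr : finrank ℚ (Submodule.span ℚ (Set.range ![X₀, X₁])) = 2 := by
    rw [finrank_span_eq_card hli]
    simp
  have hle : Submodule.span ℚ (Set.range ![X₀, X₁]) ≤ W := by
    rw [Submodule.span_le]
    rintro _ ⟨i, rfl⟩
    fin_cases i
    · exact hX₀
    · exact hX₁
  have heq := Submodule.eq_of_le_of_finrank_eq hle (by rw [hfr, hd])
  rw [← heq] at hY
  have hr : Set.range ![X₀, X₁] = {X₀, X₁} := by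
    simp [Set.pair_comm]
  rw [hr] at hY
  exact Submodule.mem_span_pair.mp hY

theorem CLE : CLE_stmt := by
  intro n H W b hSI k φ _ hφ hdim hXk hfX hXu hsf hinj X₀ hX₀ hne hsq
  obtain ⟨w, hw⟩ : ∃ w : Fin n → ℚ, φ ⬝ᵥ w = 1 := by
    obtain ⟨i, hi⟩ := Function.ne_iff.mp hφ
    refine ⟨Pi.single i (φ i)⁻¹, ?_⟩
    rw [dotProduct_single]
    exact mul_inv_cancel₀ hi
  -- nondegeneracy
  have hnd : ∀ X ∈ W, (∀ Y ∈ W, X * Y = 0) → X = 0 := by
    intro X hX hXY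
    by_contra hX0
    obtain ⟨v, hv, hv2⟩ := hinj X hX hX0
    obtain ⟨Y, hY, c, hc⟩ := hsf v hv w hw
    apply hv2
    have h1 : X *ᵥ (Y *ᵥ w) = 0 := by
      rw [mulVec_mulVec, hXY Y hY, zero_mulVec]
    rw [hc, mulVec_add, mulVec_smul, hXk X hX, smul_zero, add_zero] at h1
    exact h1
  have hX₁ : cj b X₀ ∈ W := hSI.sta X₀ hX₀
  have hX₂ : cj b (cj b X₀) ∈ W := hSI.sta _ hX₁
  have hns1 : ∀ a : ℚ, a • X₀ ≠ cj b X₀ := by
    intro a ha
    apply CLE_ns hSI hX₀ hne 1 one_pos a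
    rw [pow_one]
    exact ha.symm
  have hne1 : cj b X₀ ≠ 0 := by
    intro h
    apply hns1 0
    rw [zero_smul, h]
  have hsq1 : cj b X₀ * cj b X₀ = 0 := by
    rw [← cj_mul_apply, hsq, map_zero]
  have hsq2 : cj b (cj b X₀) * cj b (cj b X₀) = 0 := by
    rw [← cj_mul_apply, hsq1, map_zero]
  have hmul : X₀ * cj b X₀ ≠ 0 := by
    intro h
    apply hne
    apply hnd X₀ hX₀
    intro Y hY
    obtain ⟨a, c, rfl⟩ := CLE_pair hX₀ hX₁ hne hns1 hdim Y hY
    rw [mul_add, mul_smul_comm, mul_smul_comm, hsq, h, smul_zero, smul_zero, add_zero]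
  obtain ⟨x, y, hxy⟩ := CLE_pair hX₀ hX₁ hne hns1 hdim _ hX₂
  have hprod : x * y = 0 := by
    have h1 := hsq2
    rw [← hxy] at h1
    have hc := hSI.com X₀ hX₀ _ hX₁
    have h2 : (x • X₀ + y • cj b X₀) * (x • X₀ + y • cj b X₀) = (2 * (x * y)) • (X₀ * cj b X₀) := by
      rw [add_mul, mul_add, mul_add]
      simp only [smul_mul_assoc, mul_smul_comm, smul_smul, hsq, hsq1, smul_zero, zero_add, add_zero]
      rw [← hc, ← add_smul]
      ring_nf
    rw [h2, smul_eq_zero] at h1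
    rcases h1 with h1 | h1
    · linarith
    · exact absurd h1 hmul
  rcases mul_eq_zero.mp hprod with hx | hy
  · apply CLE_ns hSI hX₁ hne1 1 one_pos y
    rw [pow_one, ← hxy, hx, zero_smul, zero_add]
  · apply CLE_ns hSI hX₀ hne 2 two_pos x
    rw [cj_pow, pow_two]
    change cj b (cj b X₀) = x • X₀
    rw [← hxy, hy, zero_smul, add_zero]

end Pool.Agent.VA
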